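import Pool.Agent.H837R3.LA.Main

set_option autoImplicit false

/-!
The approximation ratio `ρ_k` of the `k`-lookahead mechanism does not tend to `1`: it is at most
`4/5` for every `k ≥ 2`.
-/

namespace Pool.Agent.Results.MP_0f9109_lc.NotToOne

open Pool.Agent.H837R3.LA

/-- For every `k ≥ 2` the approximation ratio `ρ_k` of the `k`-lookahead mechanism is at most
`4/5` (`BddBelow` says that the infimum defining `ρ_k` is a true one); for every `ε > 0` there is
a distribution with `k + 1` bidders for which `k`-lookahead mechanisms exist and each of them has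
revenue at most `(4/5 + ε) OPT`; and `ρ_k` does not tend to `1` as `k → ∞`. -/
theorem result :
    (∀ k : ℕ, 2 ≤ k → BddBelow (ratioSet k) ∧ rho k ≤ 4 / 5) ∧
    (∀ k : ℕ, 2 ≤ k → ∀ ε : ℝ, 0 < ε → ∃ D : (Fin (k + 1) → ℝ) →₀ ℝ,
      IsDist D ∧ 0 < OPT D ∧ Nonempty (Lookahead k D) ∧
        ∀ L : Lookahead k D, L.rev ≤ (4 / 5 + ε) * OPT D) ∧
    ¬ Filter.Tendsto rho Filter.atTop (nhds 1) := by
  refine ⟨fun k hk => ⟨ratioSet_bdd k, rho_le k hk⟩, fun k hk ε hε => ?_, fun h => ?_⟩
  · obtain ⟨D, hD, hO, hL⟩ := main_dist k hk ε hε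
    exact ⟨D, hD, hO, exists_lookahead k hD, hL⟩
  · have h1 : (1 : ℝ) ≤ 4 / 5 := by
      refine le_of_tendsto h ?_
      filter_upwards [Filter.eventually_ge_atTop 2] with k hk
      exact rho_le k hk
    norm_num at h1

end Pool.Agent.Results.MP_0f9109_lc.NotToOne
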